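import Pool.Agent.U262.AR.U6

/-!
The large deviations of the area of the planar self-avoiding polygons, at the scale of the square of
the perimeter, with the exact rate.
-/

set_option autoImplicit false

namespace Pool.Agent.Results.MP_f6626d_co.AreaLargeDeviations

/-- a closed nearest-neighbour loop on `ℤ²` with `m` steps, rooted at the origin and oriented,
that visits no vertex twice -/
def IsLoop (m : ℕ) (f : ZMod m → ℤ × ℤ) : Prop :=
  f 0 = 0 ∧ Function.Injective f ∧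
    ∀ i : ZMod m, |(f (i + 1)).1 - (f i).1| + |(f (i + 1)).2 - (f i).2| = 1

/-- the edge from `f k` to `f (k+1)` is horizontal, joins the columns `x = a` and `x = a + 1`, and
has height larger than `b`: it lies above the unit cell `[a, a+1] × [b, b+1]` -/
def Above (m : ℕ) (f : ZMod m → ℤ × ℤ) (a b : ℤ) (k : ZMod m) : Prop :=
  (((f k).1 = a ∧ (f (k + 1)).1 = a + 1) ∨ ((f k).1 = a + 1 ∧ (f (k + 1)).1 = a)) ∧ b < (f k).2

/-- the unit cell `[a, a+1] × [b, b+1]` is enclosed by the loop: the vertical ray from the cell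
upwards crosses an odd number of edges -/
def Encl (m : ℕ) (f : ZMod m → ℤ × ℤ) (c : ℤ × ℤ) : Prop :=
  Odd (Nat.card {k : ZMod m // Above m f c.1 c.2 k})

/-- the area: the number of unit cells enclosed by the loop -/
noncomputable def area (m : ℕ) (f : ZMod m → ℤ × ℤ) : ℕ := Nat.card {c : ℤ × ℤ // Encl m f c}

/-- the proportion of the self-avoiding polygons of perimeter `2 n` whose area has the
property `E` -/
noncomputable def prob (n : ℕ) (E : ℕ → Prop) : ℝ :=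
  ({f : ZMod (2 * n) → ℤ × ℤ | IsLoop (2 * n) f ∧ E (area (2 * n) f)}.ncard : ℝ) /
    ({f : ZMod (2 * n) → ℤ × ℤ | IsLoop (2 * n) f}.ncard : ℝ)

/-- `ω` is an `n`-step self-avoiding walk on `ℤ²` started at the origin. -/
def IsSAW (n : ℕ) (ω : Fin (n + 1) → ℤ × ℤ) : Prop :=
  ω 0 = (0, 0) ∧
  (∀ i : Fin n, |(ω i.succ).1 - (ω i.castSucc).1| + |(ω i.succ).2 - (ω i.castSucc).2| = 1) ∧
  Function.Injective ω

/-- `c_n`: the number of `n`-step self-avoiding walks from the origin -/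
noncomputable def c (n : ℕ) : ℕ := Nat.card {ω : Fin (n + 1) → ℤ × ℤ // IsSAW n ω}

/-- `c_n(x)`: the number of `n`-step self-avoiding walks from the origin to `x` -/
noncomputable def cx (n : ℕ) (x : ℤ × ℤ) : ℕ :=
  Nat.card {ω : Fin (n + 1) → ℤ × ℤ // IsSAW n ω ∧ ω (Fin.last n) = x}

/-- `P_n(ω(n) = x)`, the probability that the uniform `n`-step self-avoiding walk ends at `x` -/
noncomputable def P (n : ℕ) (x : ℤ × ℤ) : ℝ := (cx n x : ℝ) / (c n : ℝ)

/-- the area `1/2 E[max (x y', x' y)]` of a law `∑ p i δ_(x i, y i)` on the quadrant, where `(x, y)`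
and `(x', y')` are independent with this law: the largest area of a convex arc from the `x` axis to
the `y` axis with the pieces `p i (x i, y i)` (reflected), four of which make a polygon -/
noncomputable def arc {k : ℕ} (p x y : Fin k → ℝ) : ℝ :=
  1 / 2 * ∑ i, ∑ j, p i * (p j * max (x i * y j) (x j * y i))

/-- the costs `∑ p i I(x i, y i)` of the finite laws on the triangle `x, y ≥ 0`, `x + y ≤ 1` with
area at least `s` -/
def costs (I : ℝ × ℝ → ℝ) (s : ℝ) : Set ℝ :=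
  {C | ∃ (k : ℕ) (p x y : Fin k → ℝ), (∀ i, 0 ≤ p i) ∧ ∑ i, p i = 1 ∧ (∀ i, 0 ≤ x i) ∧
    (∀ i, 0 ≤ y i) ∧ (∀ i, x i + y i ≤ 1) ∧ s ≤ arc p x y ∧ C = ∑ i, p i * I (x i, y i)}

/-- the infimum of the costs -/
noncomputable def J (I : ℝ × ℝ → ℝ) (s : ℝ) : ℝ := sInf (costs I s)

theorem c_eq (n : ℕ) : c n = TH795.EP.c n := TH795.EP2.card_walks n

theorem cx_eq (n : ℕ) (x : ℤ × ℤ) : cx n x = TH795.EP.a n x.1 x.2 := TH795.EP2.card_walks_to n x

open Filter Topology

/-- **Theorem.** There are a function `I` and a constant `K` such that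
(1) `I` is the rate function of the end point of the self-avoiding walk: it is convex on the square
`|v₁| + |v₂| ≤ 1`, it vanishes at `0` and only there, and `P_n(ω(n) = x) = exp (- n I (x / n))` up
to a factor `exp (± K (log n)^2)` for all `n ≥ 2` and all `x ≠ 0` that can be reached;
(2) for the uniform self-avoiding polygon of perimeter `2 n` with area `A`, for `0 ≤ s < 1/4` and
`t > s`, `1/(2n) log Prob(A ≥ s n^2)` and `1/(2n) log Prob(s n^2 ≤ A ≤ t n^2)` converge to `- J(s)`;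
(3) `Prob(A ≥ s n^2) ≤ exp (K k (log n)^2 - 2 n J(s - 6 / k))` for all `2 ≤ k ≤ n` and all `s`;
(4) `J` vanishes at `0`, is continuous on `[0, 1/4)` and strictly increasing on `[0, 1/4]`,
`J(s) / √s` is nondecreasing, and `I(√s, √s) ≤ J(s) ≤ 2 √s I(1, 0)`. -/
theorem result : ∃ (I : ℝ × ℝ → ℝ) (K : ℝ),
    (ConvexOn ℝ {v : ℝ × ℝ | |v.1| + |v.2| ≤ 1} I ∧ I (0, 0) = 0 ∧
      (∀ v : ℝ × ℝ, |v.1| + |v.2| ≤ 1 → v ≠ (0, 0) → 0 < I v) ∧
      ∀ n : ℕ, 2 ≤ n → ∀ x : ℤ × ℤ, x ≠ 0 → (x.1 + x.2 - n) % 2 = 0 → |x.1| + |x.2| ≤ n →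
        |Real.log (P n x) + n * I ((x.1 : ℝ) / n, (x.2 : ℝ) / n)| ≤ K * Real.log n ^ 2) ∧
    (∀ s : ℝ, 0 ≤ s → s < 1 / 4 →
      Tendsto (fun n : ℕ => Real.log (prob n fun A => s * (n : ℝ) ^ 2 ≤ A) / (2 * n)) atTop
        (𝓝 (-J I s)) ∧
      ∀ t : ℝ, s < t → Tendsto (fun n : ℕ => Real.log (prob n fun A => s * (n : ℝ) ^ 2 ≤ A ∧
        (A : ℝ) ≤ t * (n : ℝ) ^ 2) / (2 * n)) atTop (𝓝 (-J I s))) ∧
    (∀ n : ℕ, 2 ≤ n → ∀ k : ℕ, 2 ≤ k → k ≤ n → ∀ s : ℝ,
      prob n (fun A => s * (n : ℝ) ^ 2 ≤ A) ≤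
        Real.exp (K * k * Real.log n ^ 2 - 2 * n * J I (s - 6 / k))) ∧
    J I 0 = 0 ∧ ContinuousOn (J I) (Set.Ico 0 (1 / 4)) ∧ StrictMonoOn (J I) (Set.Icc 0 (1 / 4)) ∧
    (∀ s t : ℝ, 0 ≤ s → s ≤ t → t ≤ 1 / 4 → J I s * √t ≤ J I t * √s) ∧
    ∀ s : ℝ, 0 ≤ s → s ≤ 1 / 4 → I (√s, √s) ≤ J I s ∧ J I s ≤ 2 * √s * I (1, 0) := by
  obtain ⟨K1, hK1, h1⟩ := Y981.L2.ldp_words
  obtain ⟨K2, hK2, h2⟩ := U262.AR.area_upper'
  refine ⟨Y981.L2.Rate, K1 + K2, ⟨Y981.L2.convex_rate, U262.AR.rate_zero, ?_, ?_⟩, ?_, ?_,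
    U262.AR.jj_nonpos le_rfl, ?_, ?_, ?_, ?_⟩
  · rintro ⟨x, y⟩ hv hne
    have h3 := U262.SW.rate_abs (v := (x, y)) hv
    rw [← h3]
    simp only
    apply U262.AR.rate_pos (abs_nonneg x) (abs_nonneg y) hv
    by_contra hcon
    push Not at hcon
    apply hne
    rw [abs_eq_zero.1 (le_antisymm hcon.1 (abs_nonneg x)),
      abs_eq_zero.1 (le_antisymm hcon.2 (abs_nonneg y))]
  · intro n hn x hx hpar hle
    have h := h1 n hn x.1 x.2 hx hpar hle
    unfold P
    rw [c_eq, cx_eq]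
    refine h.trans ?_
    have := sq_nonneg (Real.log n)
    nlinarith
  · intro s hs hs4
    constructor
    · have h3 := U262.AR.area_limit hs hs4
      refine h3.congr' ?_
      filter_upwards [eventually_ge_atTop 2] with n hn
      rw [U262.AR.LA_eq hn]
      rfl
    · intro t ht
      exact U262.AR.window_limit hs hs4 ht
  · intro n hn k hk hkn s
    refine (h2 n hn k hk hkn s).trans ?_
    apply Real.exp_le_exp.2
    have h3 : 0 ≤ K1 * k * Real.log n ^ 2 := by positivity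
    have h4 : (K1 + K2) * k * Real.log n ^ 2 =
        K1 * k * Real.log n ^ 2 + K2 * k * Real.log n ^ 2 := by ring
    rw [h4]
    have h5 : J Y981.L2.Rate (s - 6 / k) = U262.AR.JJ (s - 6 / k) := rfl
    rw [h5]
    linarith
  · intro s hs
    exact (U262.AR.jj_contAt hs.2).continuousWithinAt
  · intro s hs t ht hst
    exact U262.AR.jj_strict hs.1 hst ht.2
  · intro s t hs hst ht
    exact U262.AR.jj_ratio hs hst ht
  · intro s hs hs4
    exact ⟨U262.AR.le_jj hs hs4, U262.AR.jj_le' hs hs4⟩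

end Pool.Agent.Results.MP_f6626d_co.AreaLargeDeviations
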