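import Pool.Agent.U954.AG.Fin

/-!
Area law of square-lattice self-avoiding polygons: regularity to all orders of the logarithms of the
probabilities of the values of the area, down to exponentially small probabilities, also jointly with
the trace of the polygon on a set of `n / C` lattice points.
-/

set_option autoImplicit false

namespace Pool.Agent.Results.MP_f6626d_co.AreaLogDifferences

/-- a closed nearest-neighbour loop on `ℤ²` with `m` steps, rooted at the origin and oriented,
that visits no vertex twice -/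
def IsLoop (m : ℕ) (f : ZMod m → ℤ × ℤ) : Prop :=
  f 0 = 0 ∧ Function.Injective f ∧
    ∀ i : ZMod m, |(f (i + 1)).1 - (f i).1| + |(f (i + 1)).2 - (f i).2| = 1

/-- the edge from `f k` to `f (k+1)` is horizontal, joins the columns `x = a` and `x = a + 1`, and
has height larger than `b`: it lies above the unit cell `[a, a+1] × [b, b+1]` -/
def Above (m : ℕ) (f : ZMod m → ℤ × ℤ) (a b : ℤ) (k : ZMod m) : Prop :=
  (((f k).1 = a ∧ (f (k + 1)).1 = a + 1) ∨ ((f k).1 = a + 1 ∧ (f (k + 1)).1 = a)) ∧ b < (f k).2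

/-- the unit cell `[a, a+1] × [b, b+1]` is enclosed by the loop: the vertical ray from the cell
upwards crosses an odd number of edges -/
def Encl (m : ℕ) (f : ZMod m → ℤ × ℤ) (c : ℤ × ℤ) : Prop :=
  Odd (Nat.card {k : ZMod m // Above m f c.1 c.2 k})

/-- the area: the number of unit cells enclosed by the loop -/
noncomputable def area (m : ℕ) (f : ZMod m → ℤ × ℤ) : ℕ := Nat.card {c : ℤ × ℤ // Encl m f c}

/-- expectation under the uniform law on the (rooted, oriented) self-avoiding polygons of
perimeter `2 n` -/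
noncomputable def E (n : ℕ) (F : (ZMod (2 * n) → ℤ × ℤ) → ℝ) : ℝ :=
  (∑ᶠ f ∈ {f : ZMod (2 * n) → ℤ × ℤ | IsLoop (2 * n) f}, F f) /
    ({f : ZMod (2 * n) → ℤ × ℤ | IsLoop (2 * n) f}.ncard : ℝ)

/-- the function `F` of the polygon does not change when one vertex of the polygon is moved and
neither its old nor its new position is in `V` -/
def Unchanged (n : ℕ) (V : Finset (ℤ × ℤ)) (F : (ZMod (2 * n) → ℤ × ℤ) → ℝ) : Prop :=
  ∀ f f' : ZMod (2 * n) → ℤ × ℤ, IsLoop (2 * n) f → IsLoop (2 * n) f' → ∀ k,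
    (∀ j, j ≠ k → f j = f' j) → f k ∉ V → f' k ∉ V → F f' = F f

open scoped Classical in
/-- `E[F 1(A_n = a)]` -/
noncomputable def W (n : ℕ) (F : (ZMod (2 * n) → ℤ × ℤ) → ℝ) (a : ℕ) : ℝ :=
  E n (fun f => F f * (if area (2 * n) f = a then (1 : ℝ) else 0))

/-- **Theorem.** Let `A_n` be the area of the uniform self-avoiding polygon of perimeter `2 n` on
`ℤ²`. For every `r ≥ 1` there is `C ≥ 1` such that for all `n ≥ 2`, all sets `V` of at most `n / C`
points of `ℤ²` and all functions `F` of the polygon with values in `[0, 1]` which do not change when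
one vertex of the polygon is moved outside of `V` (for example `F = 1`, or the indicator of an event
which depends on the times and places of the visits of the polygon to `V`): if
`W(a) = E[F 1(A_n = a)] ≥ e^(-L)` with `log n ≤ L ≤ n / C`, then the numbers `W(a + i)`, `0 ≤ i ≤ r`,
are positive, and the `r`-th difference of their logarithms,
`∑ (-1)^i C(r,i) log W(a + i)`, is at most `C (L / n)^(r/2)` in absolute value. -/
theorem result : ∀ r : ℕ, 1 ≤ r → ∃ C : ℝ, 1 ≤ C ∧ ∀ n : ℕ, 2 ≤ n →
    ∀ (V : Finset (ℤ × ℤ)) (F : (ZMod (2 * n) → ℤ × ℤ) → ℝ), C * V.card ≤ n →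
    (∀ f, IsLoop (2 * n) f → 0 ≤ F f ∧ F f ≤ 1) → Unchanged n V F → ∀ (a : ℕ) (L : ℝ),
    Real.log n ≤ L → C * L ≤ n → Real.exp (-L) ≤ W n F a →
    (∀ i, i ≤ r → 0 < W n F (a + i)) ∧
    |∑ i ∈ Finset.range (r + 1), (-1 : ℝ) ^ i * (r.choose i : ℝ) * Real.log (W n F (a + i))| ≤
      C * Real.sqrt (L / n) ^ r := by
  intro r hr
  obtain ⟨C, hC, h⟩ := Pool.Agent.U954.AG.log_all r hr
  exact ⟨C, hC, fun n hn V F hV hF hU a L hL hCL hp => h n hn V F hV hF hU a L hL hCL hp⟩

end Pool.Agent.Results.MP_f6626d_co.AreaLogDifferences
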