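import Pool.Agent.U262.AR.Q8

/-!
The width and the height of a self-avoiding polygon of large area: they are close to those of the
Wulff shape of this area.
-/

set_option autoImplicit false

namespace Pool.Agent.Results.MP_f6626d_co.ExtentsGivenArea

/-- a closed nearest-neighbour loop on `ℤ²` with `m` steps, rooted at the origin and oriented,
that visits no vertex twice -/
def IsLoop (m : ℕ) (f : ZMod m → ℤ × ℤ) : Prop :=
  f 0 = 0 ∧ Function.Injective f ∧
    ∀ i : ZMod m, |(f (i + 1)).1 - (f i).1| + |(f (i + 1)).2 - (f i).2| = 1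

/-- the edge from `f k` to `f (k+1)` is horizontal, joins the columns `x = a` and `x = a + 1`, and
has height larger than `b`: it lies above the unit cell `[a, a+1] × [b, b+1]` -/
def Above (m : ℕ) (f : ZMod m → ℤ × ℤ) (a b : ℤ) (k : ZMod m) : Prop :=
  (((f k).1 = a ∧ (f (k + 1)).1 = a + 1) ∨ ((f k).1 = a + 1 ∧ (f (k + 1)).1 = a)) ∧ b < (f k).2

/-- the unit cell `[a, a+1] × [b, b+1]` is enclosed by the loop: the vertical ray from the cell
upwards crosses an odd number of edges -/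
def Encl (m : ℕ) (f : ZMod m → ℤ × ℤ) (c : ℤ × ℤ) : Prop :=
  Odd (Nat.card {k : ZMod m // Above m f c.1 c.2 k})

/-- the area: the number of unit cells enclosed by the loop -/
noncomputable def area (m : ℕ) (f : ZMod m → ℤ × ℤ) : ℕ := Nat.card {c : ℤ × ℤ // Encl m f c}

/-- the width: the largest difference of two first coordinates -/
noncomputable def width (m : ℕ) (f : ZMod m → ℤ × ℤ) : ℝ :=
  ⨆ p : ZMod m × ZMod m, (((f p.1).1 : ℝ) - (f p.2).1)

/-- the height: the largest difference of two second coordinates -/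
noncomputable def height (m : ℕ) (f : ZMod m → ℤ × ℤ) : ℝ :=
  ⨆ p : ZMod m × ZMod m, (((f p.1).2 : ℝ) - (f p.2).2)

/-- the loops with `2 n` steps and area at least `r` -/
def Large (n : ℕ) (r : ℝ) : Set (ZMod (2 * n) → ℤ × ℤ) :=
  {f | IsLoop (2 * n) f ∧ r ≤ area (2 * n) f}

/-- `ω` is an `n`-step self-avoiding walk on `ℤ²` started at the origin. -/
def IsSAW (n : ℕ) (ω : Fin (n + 1) → ℤ × ℤ) : Prop :=
  ω 0 = (0, 0) ∧
  (∀ i : Fin n, |(ω i.succ).1 - (ω i.castSucc).1| + |(ω i.succ).2 - (ω i.castSucc).2| = 1) ∧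
  Function.Injective ω

/-- `c_n`: the number of `n`-step self-avoiding walks from the origin -/
noncomputable def c (n : ℕ) : ℕ := Nat.card {ω : Fin (n + 1) → ℤ × ℤ // IsSAW n ω}

/-- the mean of `exp (l · ω(n))` under the uniform law on the `n`-step self-avoiding walks -/
noncomputable def force (n : ℕ) (l : ℝ × ℝ) : ℝ :=
  (∑ᶠ ω ∈ {ω : Fin (n + 1) → ℤ × ℤ | IsSAW n ω},
    Real.exp (l.1 * (ω (Fin.last n)).1 + l.2 * (ω (Fin.last n)).2)) / (c n : ℝ)

/-- the area (Lebesgue measure) of the set `{L ≤ h}` -/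
noncomputable def V (L : ℝ × ℝ → ℝ) (h : ℝ) : ℝ :=
  (MeasureTheory.volume {l : ℝ × ℝ | L l ≤ h}).toReal

/-- the width of the set `{L ≤ h}` -/
noncomputable def ext (L : ℝ × ℝ → ℝ) (h : ℝ) : ℝ :=
  sSup {d : ℝ | ∃ l l' : ℝ × ℝ, L l ≤ h ∧ L l' ≤ h ∧ d = l.1 - l'.1}

/-- `h` maximises `√(s V(h)) - h` over `h ≥ 0` -/
def Best (L : ℝ × ℝ → ℝ) (s h : ℝ) : Prop :=
  0 ≤ h ∧ ∀ h' : ℝ, 0 ≤ h' → √(s * V L h') - h' ≤ √(s * V L h) - h

theorem c_eq (n : ℕ) : c n = TH795.EP.c n := TH795.EP2.card_walks n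

open Pool.Agent.TH795.EP in
theorem force_eq (n : ℕ) (l : ℝ × ℝ) : force n l = Y981.L2.Z l n / TH795.EP.c n := by
  unfold force
  rw [c_eq]
  congr 1
  have h1 := TH795.EP2.finsum_walks n (fun ω =>
    Real.exp (l.1 * (ω (Fin.last n)).1 + l.2 * (ω (Fin.last n)).2))
  refine h1.trans ?_
  unfold Y981.L2.Z
  apply Finset.sum_congr rfl
  intro w hw
  rw [mem_fs] at hw
  rw [TH795.EP2.ew_last n hw.2]

open U262.AR Y981.L2 in
theorem ext_eq {h : ℝ} (hh : 0 ≤ h) : ext Lam h = 2 * LL h := by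
  unfold ext
  apply IsGreatest.csSup_eq
  constructor
  · refine ⟨(LL h, 0), (-LL h, 0), (LL_mem hh).2, ?_, by ring⟩
    rw [← lam_abs, abs_neg, lam_abs]
    exact (LL_mem hh).2
  · rintro d ⟨l, l', h1, h2, rfl⟩
    have key : ∀ l : ℝ × ℝ, Lam l ≤ h → |l.1| ≤ LL h := by
      intro l hl
      rw [← lam_abs] at hl
      have e1 := lam_mono (x := |l.1|) (x' := |l.1|) (y := 0) (y' := |l.2|) (abs_nonneg _) le_rfl
        le_rfl (abs_nonneg _)
      have e2 := Lam_swap (|l.1|, 0)
      simp only at e2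
      exact le_gg (abs_nonneg _) (by rw [e2]; linarith)
    have e1 := key l h1
    have e2 := key l' h2
    rw [abs_le] at e1 e2
    linarith [e1.2, e2.1]

open Filter Topology

/-- **Theorem.** There is a function `L` on `ℝ²` such that
(1) `1/n log E_n[exp (l · ω(n))]` converges to `L(l)` for every force `l`, for the uniform `n`-step
self-avoiding walk `ω`; the level sets `{L ≤ h}` have finite areas `V(h)`;
(2) for `0 < s < 1/4` there is `h ≥ 0` that maximises `√(s V(h)) - h`, and for each such `h` the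
level set `{L ≤ h}` has positive area and is, scaled to the area `s`, the Wulff shape: the
self-avoiding polygons of perimeter `2 n` with area at least `s n^2` have, up to an exponentially
small proportion, width and height within `ε n` of `n` times the width
`ext(h) √(s / V(h))` of this scaled level set. -/
theorem result : ∃ L : ℝ × ℝ → ℝ,
    (∀ l : ℝ × ℝ, Tendsto (fun n : ℕ => Real.log (force n l) / n) atTop (𝓝 (L l))) ∧
    (∀ h : ℝ, MeasureTheory.volume {l : ℝ × ℝ | L l ≤ h} ≠ ⊤) ∧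
    ∀ s : ℝ, 0 < s → s < 1 / 4 → (∃ h : ℝ, Best L s h) ∧
      ∀ h : ℝ, Best L s h → 0 < V L h ∧ ∀ ε : ℝ, 0 < ε → ∃ κ : ℝ, 0 < κ ∧ ∀ᶠ n : ℕ in atTop,
        0 < (Large n (s * (n : ℝ) ^ 2)).ncard ∧
        ({f ∈ Large n (s * (n : ℝ) ^ 2) |
          ε ≤ |width (2 * n) f / n - ext L h * √(s / V L h)| ∨
          ε ≤ |height (2 * n) f / n - ext L h * √(s / V L h)|}.ncard : ℝ) ≤
        Real.exp (-(κ * n)) * (Large n (s * (n : ℝ) ^ 2)).ncard := by
  refine ⟨Y981.L2.Lam, ?_, fun h => U262.AR.vol_fin h, ?_⟩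
  · intro l
    refine (U262.AR.lam_lim l).congr fun n => ?_
    rw [force_eq]
  · intro s hs hs4
    constructor
    · obtain ⟨h, hh, hopt⟩ := U262.AR.exists_opt hs hs4
      refine ⟨h, hh, fun h' hh' => ?_⟩
      have h1 := (U262.AR.wulff_lub hs.le hs4).1 ⟨h', hh', rfl⟩
      rw [← hopt] at h1
      exact h1
    · intro h hb
      have hopt := U262.AR.opt_iff hs hs4 hb.1 hb.2
      have hV : 0 < V Y981.L2.Lam h := by
        have h0 : 0 ≤ V Y981.L2.Lam h := ENNReal.toReal_nonneg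
        rcases h0.lt_or_eq with h1 | h1
        · exact h1
        · exfalso
          have h2 : U262.AR.VV h = 0 := h1.symm
          have h3 := U262.AR.jj_pos hs hs4.le
          rw [h2, mul_zero, Real.sqrt_zero] at hopt
          have := hb.1
          linarith
      refine ⟨hV, fun ε hε => ?_⟩
      obtain ⟨κ, hκ, h1⟩ := U262.AR.extents_bad hs hs4 hb.1 hopt hε
      refine ⟨κ, hκ, ?_⟩
      have h2 := U262.AR.LA_pos hs.le hs4
      filter_upwards [h1, h2, eventually_ge_atTop 2] with n e1 e2 hn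
      rw [U262.AR.LA_eq hn] at e2
      refine ⟨by exact_mod_cast e2, ?_⟩
      refine le_trans (le_of_eq ?_) e1
      rw [ext_eq hb.1]
      congr 2
      ext f
      constructor
      · rintro ⟨⟨g1, g2⟩, g3⟩
        exact ⟨g1, g2, g3⟩
      · rintro ⟨g1, g2, g3⟩
        exact ⟨⟨g1, g2⟩, g3⟩

end Pool.Agent.Results.MP_f6626d_co.ExtentsGivenArea
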