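import Pool.Agent.Results.MP_f6626d_co.AreaLimits
import Pool.Agent.Results.MP_f6626d_co.AreaLawsMergeLogTwo
import Pool.Agent.U17.TS.Law

/-!
Area law of square-lattice self-avoiding polygons: the law of `A_n / E[A_n]` converges at a power
rate if and only if the laws at the lengths `a n` and `n`, and at the lengths `b n` and `n`, are
close, for two multiplicatively independent factors `a`, `b`, along sparse sequences of lengths.
The definitions `L`, `ConvergesAlong` are those of the starting result `AreaLimits`.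
-/

set_option autoImplicit false

namespace Pool.Agent.Results.MP_f6626d_co.LawFromTwoScales

open Filter Topology MeasureTheory
open Pool.Agent.Results.MP_f6626d_co.AreaLimits (L ConvergesAlong)

/-- `a` and `b` are multiplicatively independent: no positive power of `a` is a positive power of
`b` -/
def Independent (a b : ℕ) : Prop := ∀ i j : ℕ, 0 < i → 0 < j → a ^ i ≠ b ^ j

/-- a sequence of half-perimeters tending to infinity with gaps at most `v ^ e` -/
def Sparse (e : ℝ) (v : ℕ → ℕ) : Prop :=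
  Tendsto v atTop atTop ∧ ∀ᶠ j : ℕ in atTop, (v (j + 1) : ℝ) ≤ v j + (v j : ℝ) ^ e

/-- the functions `g : ℝ → [-1, 1]` with Lipschitz constant `1` -/
def Test (g : ℝ → ℝ) : Prop := (∀ x y, |g x - g y| ≤ |x - y|) ∧ ∀ x, |g x| ≤ 1

/-- along `n = v j` the laws of `A_{an} / E[A_{an}]` and of `A_n / E[A_n]` are at bounded-Lipschitz
distance `O(n ^ (-M))` -/
def Close (a : ℕ) (v : ℕ → ℕ) (M : ℝ) : Prop :=
  ∃ C : ℝ, ∀ᶠ j : ℕ in atTop, ∀ g, Test g → |L (a * v j) g - L (v j) g| ≤ C * (v j : ℝ) ^ (-M)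

/-- the law of `A_n / E[A_n]` is at bounded-Lipschitz distance `O(n ^ (-M))` from `ν` -/
def Rate (ν : ProbabilityMeasure ℝ) (M : ℝ) : Prop :=
  ∃ C : ℝ, ∀ᶠ n : ℕ in atTop, ∀ g, Test g →
    |L n g - ∫ x, g x ∂(ν : Measure ℝ)| ≤ C * (n : ℝ) ^ (-M)

theorem cont_of_test {g : ℝ → ℝ} (hg : Test g) : Continuous g := by
  have : LipschitzWith 1 g := LipschitzWith.of_dist_le_mul (fun x y => by
    rw [Real.dist_eq, Real.dist_eq, NNReal.coe_one, one_mul]
    exact hg.1 x y)
  exact this.continuous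

/-- convergence for the test functions implies weak convergence -/
theorem weak_of_test (ν : ProbabilityMeasure ℝ)
    (h1 : ∀ g, Test g → Tendsto (fun n => L n g) atTop (𝓝 (∫ x, g x ∂(ν : Measure ℝ)))) :
    ConvergesAlong id ν := by
  rw [Pool.Agent.Results.MP_f6626d_co.AreaLimits.converges_iff strictMono_id]
  show Tendsto Pool.Agent.W387.Q.AL.plaw atTop (𝓝 ν)
  rw [tendsto_iff_forall_lipschitz_integral_tendsto]
  rintro f ⟨C, hC⟩ ⟨Λ, hΛ⟩
  obtain ⟨M, hM⟩ : ∃ M : ℝ, M = |C| + (Λ : ℝ) + 1 := ⟨_, rfl⟩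
  have hM0 : 0 < M := by rw [hM]; positivity
  have hf0 : ∀ x, |f x - f 0| ≤ M := fun x => by
    have h2 := hC x 0
    rw [Real.dist_eq] at h2
    have := le_abs_self C
    have h3 : (0 : ℝ) ≤ Λ := Λ.2
    rw [hM]; linarith
  have hfl : ∀ x y, |f x - f y| ≤ M * |x - y| := fun x y => by
    have h2 := hΛ.dist_le_mul x y
    rw [Real.dist_eq, Real.dist_eq] at h2
    have h3 : (Λ : ℝ) ≤ M := by
      rw [hM]; have := abs_nonneg C; linarith
    exact h2.trans (mul_le_mul_of_nonneg_right h3 (abs_nonneg _))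
  have h2 := h1 (fun x => (f x - f 0) / M) ⟨fun x y => by
      rw [← sub_div, sub_sub_sub_cancel_right, abs_div, abs_of_pos hM0, div_le_iff₀ hM0]
      linarith [hfl x y], fun x => by
      rw [abs_div, abs_of_pos hM0, div_le_one hM0]
      exact hf0 x⟩
  have hint : ∀ μ : Measure ℝ, IsProbabilityMeasure μ → Integrable f μ := fun μ _ => by
    refine Integrable.of_bound hΛ.continuous.aestronglyMeasurable (|f 0| + M)
      (Eventually.of_forall fun x => ?_)
    rw [Real.norm_eq_abs]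
    have : f x = f 0 + (f x - f 0) := by ring
    rw [this]
    exact (abs_add_le _ _).trans (by linarith [hf0 x])
  have hE : ∀ μ : Measure ℝ, IsProbabilityMeasure μ →
      ∫ x, f x ∂μ = M * (∫ x, (f x - f 0) / M ∂μ) + f 0 := fun μ hμ => by
    rw [integral_div, integral_sub (hint μ hμ) (integrable_const _), integral_const]
    simp only [probReal_univ, smul_eq_mul, one_mul]
    field_simp
    ring
  have h3 : Tendsto (fun n => M * (L n (fun x => (f x - f 0) / M)) + f 0) atTop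
      (𝓝 (M * (∫ x, (f x - f 0) / M ∂(ν : Measure ℝ)) + f 0)) := (h2.const_mul M).add_const _
  rw [← hE ν inferInstance] at h3
  refine h3.congr' ?_
  filter_upwards [eventually_ge_atTop 2] with n hn
  show _ = ∫ x, f x ∂(Pool.Agent.W387.Q.AL.law n)
  rw [hE (Pool.Agent.W387.Q.AL.law n) (Pool.Agent.W387.Q.AL.isProb n),
    Pool.Agent.W387.Q.AL.integral_law hn]
  rfl

/-- the class of test functions as a type -/
abbrev T : Type := {g : ℝ → ℝ // Test g}

instance : Nonempty T := ⟨⟨fun _ => 0, fun x y => by simp, fun x => by simp⟩⟩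

theorem L_bound (n : ℕ) (hn : 2 ≤ n) {g : ℝ → ℝ} (hg : Test g) : |L n g| ≤ 1 := by
  have h := Pool.Agent.W387.Q.AL.integral_law hn g
  have h1 : L n g = ∫ x, g x ∂(Pool.Agent.W387.Q.AL.law n) := h.symm
  rw [h1]
  have := Pool.Agent.W387.Q.AL.isProb n
  have h2 := norm_integral_le_of_norm_le_const (μ := Pool.Agent.W387.Q.AL.law n) (C := 1) (f := g)
    (Eventually.of_forall fun x => by rw [Real.norm_eq_abs]; exact hg.2 x)
  rw [Real.norm_eq_abs] at h2
  simpa using h2

theorem merge (δ : ℝ) (hδ : δ < 1 / 2) : ∃ K : ℝ, ∀ᶠ n : ℕ in atTop, ∀ i : T,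
    |L (n + 1) i.1 - L n i.1| ≤ K * (n : ℝ) ^ (-δ) := by
  obtain ⟨K, hK⟩ := Pool.Agent.Results.MP_f6626d_co.AreaLawsMergeLogTwo.result.1
  refine ⟨|K|, ?_⟩
  filter_upwards [eventually_ge_atTop 2, Pool.Agent.N226.SX.log_rate δ hδ] with n hn h1 i
  have h2 := hK n hn i.1 i.2.1 i.2.2
  have h3 : (0 : ℝ) ≤ Real.log n / Real.sqrt n :=
    div_nonneg (Real.log_natCast_nonneg n) (Real.sqrt_nonneg _)
  calc |L (n + 1) i.1 - L n i.1| ≤ K * (Real.log n / Real.sqrt n) := h2
    _ ≤ |K| * (Real.log n / Real.sqrt n) := mul_le_mul_of_nonneg_right (le_abs_self K) h3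
    _ ≤ |K| * (n : ℝ) ^ (-δ) := mul_le_mul_of_nonneg_left h1 (abs_nonneg K)

/-- **Theorem.** Let `a, b ≥ 2` be multiplicatively independent, `0 ≤ e < 1/2`, and let `v, w` be
sequences of half-perimeters tending to infinity with gaps at most `v ^ e`, `w ^ e`.
(1) If `0 < M' ≤ M`, `M' + e < 1/2`, and the laws of `A_{an} / E[A_{an}]` and `A_n / E[A_n]` are
`O(n ^ (-M))`-close along `n = v j`, and those of `A_{bn} / E[A_{bn}]` and `A_n / E[A_n]` along
`n = w j`, then the law of `A_n / E[A_n]` converges along all `n` to a probability measure on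
`[0, ∞)` with mean at most `1`, and it is at bounded-Lipschitz distance `O(n ^ (-M'))` from the
limit.  (2) Convergence at some power rate is equivalent to closeness at some power rate along these
two sparse sequences. -/
theorem result {a b : ℕ} (ha : 2 ≤ a) (hb : 2 ≤ b) (hab : Independent a b) {e : ℝ} (he0 : 0 ≤ e)
    (he1 : e < 1 / 2) {v w : ℕ → ℕ} (hv : Sparse e v) (hw : Sparse e w) :
    (∀ M M' : ℝ, 0 < M' → M' ≤ M → M' + e < 1 / 2 → Close a v M → Close b w M →
      ∃ ν : ProbabilityMeasure ℝ, ConvergesAlong id ν ∧ (ν : Measure ℝ) (Set.Iio 0) = 0 ∧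
        ∫⁻ x, ENNReal.ofReal x ∂(ν : Measure ℝ) ≤ 1 ∧ Rate ν M') ∧
    ((∃ ν : ProbabilityMeasure ℝ, ∃ M : ℝ, 0 < M ∧ Rate ν M) ↔
      ∃ M : ℝ, 0 < M ∧ Close a v M ∧ Close b w M) := by
  have main : ∀ M M' : ℝ, 0 < M' → M' ≤ M → M' + e < 1 / 2 → Close a v M → Close b w M →
      ∃ ν : ProbabilityMeasure ℝ, ConvergesAlong id ν ∧ (ν : Measure ℝ) (Set.Iio 0) = 0 ∧
        ∫⁻ x, ENNReal.ofReal x ∂(ν : Measure ℝ) ≤ 1 ∧ Rate ν M' := by
    intro M M' hM'0 hM' hM'e hca hcb
    obtain ⟨ℓ, C, hℓ⟩ := Pool.Agent.U17.TS.unif_two (ι := T) (H := fun n i => L n i.1) (B := 1)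
      (κ := 1 / 2) (by norm_num)
      ((eventually_ge_atTop 2).mono fun n hn i => L_bound n hn i.2) merge ha hb hab he0
      (by linarith) hM'0 hM' hM'e v hv.1 hv.2 w hw.1 hw.2
      (by
        obtain ⟨C, hC⟩ := hca
        exact ⟨C, hC.mono fun j hj i => hj i.1 i.2⟩)
      (by
        obtain ⟨C, hC⟩ := hcb
        exact ⟨C, hC.mono fun j hj i => hj i.1 i.2⟩)
    obtain ⟨ν, hν, ψ, hψ, hc⟩ :=
      Pool.Agent.Results.MP_f6626d_co.AreaLimits.result.1 id strictMono_id
    have htend : ∀ i : T, Tendsto (fun n => L n i.1) atTop (𝓝 (ℓ i)) := by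
      intro i
      rw [tendsto_iff_norm_sub_tendsto_zero]
      have h0 : Tendsto (fun n : ℕ => C * (n : ℝ) ^ (-M')) atTop (𝓝 0) := by
        have := (Pool.Agent.U17.TS.rpow_neg_tendsto (v := fun n => n) tendsto_id hM'0).const_mul C
        simpa using this
      refine squeeze_zero' (Eventually.of_forall fun n => norm_nonneg _) ?_ h0
      filter_upwards [hℓ] with n hn
      rw [Real.norm_eq_abs]
      exact hn i
    have hlim : ∀ i : T, ℓ i = ∫ x, i.1 x ∂(ν : Measure ℝ) := by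
      intro i
      refine tendsto_nhds_unique ((htend i).comp hψ.tendsto_atTop) ?_
      exact hc i.1 (cont_of_test i.2) ⟨1, i.2.2⟩
    have hw' : ConvergesAlong id ν := weak_of_test ν fun g hg => by
      have := htend ⟨g, hg⟩
      rw [hlim] at this
      exact this
    have h3 := Pool.Agent.Results.MP_f6626d_co.AreaLimits.result.2.2.1 ν hν
    refine ⟨ν, hw', h3.1, h3.2, C, ?_⟩
    filter_upwards [hℓ] with n hn g hg
    have h4 := hn ⟨g, hg⟩
    rw [hlim] at h4
    exact h4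
  refine ⟨main, ?_, ?_⟩
  · rintro ⟨ν, M, hM, C, hC⟩
    have hclose : ∀ (c : ℕ), 1 ≤ c → ∀ u : ℕ → ℕ, Tendsto u atTop atTop → Close c u M := by
      intro c hc u hu
      refine ⟨|C| + |C|, ?_⟩
      filter_upwards [hu.eventually (hC.and (eventually_ge_atTop 1)),
        (hu.const_mul_atTop' (by omega : 0 < c)).eventually hC] with j h1 h2 g hg
      have h3 := h1.1 g hg
      have h4 := h2 g hg
      have hup : (0 : ℝ) < u j := by exact_mod_cast h1.2
      have h5 : ((c * u j : ℕ) : ℝ) ^ (-M) ≤ (u j : ℝ) ^ (-M) :=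
        Real.rpow_le_rpow_of_nonpos hup
          (by exact_mod_cast Nat.le_mul_of_pos_left _ hc) (by linarith)
      have h6 : (0 : ℝ) ≤ (u j : ℝ) ^ (-M) := by positivity
      have h6' : (0 : ℝ) ≤ ((c * u j : ℕ) : ℝ) ^ (-M) := by positivity
      have h7 : C * ((c * u j : ℕ) : ℝ) ^ (-M) ≤ |C| * (u j : ℝ) ^ (-M) :=
        (mul_le_mul_of_nonneg_right (le_abs_self C) h6').trans
          (mul_le_mul_of_nonneg_left h5 (abs_nonneg C))
      have h8 : C * (u j : ℝ) ^ (-M) ≤ |C| * (u j : ℝ) ^ (-M) :=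
        mul_le_mul_of_nonneg_right (le_abs_self C) h6
      have h9 := abs_sub_le (L (c * u j) g) (∫ x, g x ∂(ν : Measure ℝ)) (L (u j) g)
      rw [abs_sub_comm (∫ x, g x ∂(ν : Measure ℝ)) (L (u j) g)] at h9
      rw [add_mul]
      linarith
    exact ⟨M, hM, hclose a (by omega) v hv.1, hclose b (by omega) w hw.1⟩
  · rintro ⟨M, hM, h1, h2⟩
    obtain ⟨ν, -, -, -, h3⟩ := main M (min M ((1 / 2 - e) / 2))
      (lt_min hM (by linarith)) (min_le_left _ _)
      (by have := min_le_right M ((1 / 2 - e) / 2); linarith) h1 h2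
    exact ⟨ν, _, lt_min hM (by linarith), h3⟩

end Pool.Agent.Results.MP_f6626d_co.LawFromTwoScales
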