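import Pool.Agent.U372.NN.Walk

/-!
# The narrow necks of a self-avoiding polygon

A long self-avoiding polygon on `ℤ²` has few narrow necks, at all scales at once: places where two
parts of the polygon which are far apart along the polygon come within distance `r`. This separates
self-avoiding polygons from the contours of random trees (branched polymers): for the contour of a
uniform random tree with `n` edges the number of the edges which cut off at least `m` vertices on both
sides is of order `n / √m`, while here the number of the necks which leave at least `m` steps on both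
sides is at most `n / m` times a power of `log n`, even if their width `r` grows faster than all powers
of `log n`.
-/

set_option autoImplicit false

namespace Pool.Agent.Results.MP_f6626d_co.NarrowNecks

open scoped Classical

/-- a closed nearest-neighbour loop on `ℤ²` with `m` steps, rooted at the origin and oriented,
that visits no vertex twice -/
def IsLoop (m : ℕ) (f : ZMod m → ℤ × ℤ) : Prop :=
  f 0 = 0 ∧ Function.Injective f ∧
    ∀ i : ZMod m, |(f (i + 1)).1 - (f i).1| + |(f (i + 1)).2 - (f i).2| = 1

/-- the rooted oriented polygons of perimeter `2 n` -/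
def loops (n : ℕ) : Set (ZMod (2 * n) → ℤ × ℤ) := {f | IsLoop (2 * n) f}

/-- the probability of `A` for the uniform rooted oriented polygon of perimeter `2 n` -/
noncomputable def prob (n : ℕ) (A : (ZMod (2 * n) → ℤ × ℤ) → Prop) : ℝ :=
  ({f | f ∈ loops n ∧ A f}.ncard : ℝ) / ((loops n).ncard : ℝ)

/-- the number of steps along the (oriented) polygon from the vertex number `i` to the vertex
number `j` -/
def arc {M : ℕ} (i j : ZMod M) : ℕ := (j - i).val

/-- the vertices number `i` and `j` are within distance `r` (in the norm `|x| + |y|`) -/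
def near {M : ℕ} (r : ℕ) (f : ZMod M → ℤ × ℤ) (i j : ZMod M) : Prop :=
  |(f j).1 - (f i).1| + |(f j).2 - (f i).2| ≤ (r : ℤ)

/-- the number of pairs `(i, j)` of vertices within distance `r`, such that `i` is strictly inside and
`j` strictly outside of the arc with `l` steps which starts at the vertex number `s` -/
noncomputable def across {M : ℕ} (r : ℕ) (s : ZMod M) (l : ℕ) (f : ZMod M → ℤ × ℤ) : ℕ :=
  {q : ZMod M × ZMod M | 0 < arc s q.1 ∧ arc s q.1 < l ∧ l < arc s q.2 ∧ near r f q.1 q.2}.ncard

/-- the number of pairs `(i, j)` of vertices within distance `r`, such that both arcs between them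
have more than `m` steps -/
noncomputable def necks {M : ℕ} (r m : ℕ) (f : ZMod M → ℤ × ℤ) : ℕ :=
  {q : ZMod M × ZMod M | m < arc q.1 q.2 ∧ m < arc q.2 q.1 ∧ near r f q.1 q.2}.ncard

/-- the step number `k` of the polygon joins `(x, h)` and `(x + 1, h)`, in one of the two
directions -/
def Level {M : ℕ} (f : ZMod M → ℤ × ℤ) (x h : ℤ) (k : ZMod M) : Prop :=
  (f k = (x, h) ∧ f (k + 1) = (x + 1, h)) ∨ (f k = (x + 1, h) ∧ f (k + 1) = (x, h))

/-- the number of unit cells `[x, x + 1] × [y, y + 1]` (inside or outside of the polygon) which are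
between two horizontal edges of the polygon in the column `[x, x + 1]`, at distance at most `r` from
each other, such that both arcs between these edges have more than `m` steps -/
noncomputable def neckArea {M : ℕ} (r m : ℕ) (f : ZMod M → ℤ × ℤ) : ℕ :=
  {c : ℤ × ℤ | ∃ (i j : ZMod M) (h₁ h₂ : ℤ), Level f c.1 h₁ i ∧ Level f c.1 h₂ j ∧
    h₂ ≤ c.2 ∧ c.2 < h₁ ∧ h₁ - h₂ ≤ r ∧ m < arc i j ∧ m < arc j i}.ncard

open Pool.Agent.TH546.SAW in
theorem loops_eq {n : ℕ} (hn : 1 ≤ n) : loops n = (PL n : Set (ZMod (2 * n) → ℤ × ℤ)) := by
  ext f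
  rw [Finset.mem_coe, mem_PL hn]
  rfl

open Pool.Agent.U372.NN Pool.Agent.TH546.SAW in
/-- **The narrow necks of a self-avoiding polygon.** There is `K > 0` such that for all `n ≥ 2` and
`x ≥ 0` the uniform self-avoiding polygon of perimeter `2 n` on `ℤ²` has the following properties, for
all widths `r ≥ 1` at once, with probability at least `1 - e^{-x}`; here
`F(r) = exp (K (log (r + 1))³)`:
(1) for every arc of the polygon there are at most `F(r) ((log n)² + x)` pairs of vertices within
distance `r`, one strictly inside and one strictly outside of the arc;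
(2) for every `m ≥ 1` there are at most `F(r) (n / m) ((log n)² + x)` pairs of vertices within distance
`r` such that both arcs between them have more than `m` steps;
(3) for every `m ≥ 1` at most `F(r) (n / m) ((log n)² + x)` unit cells are between two horizontal edges
of the polygon in their column, at distance at most `r`, such that both arcs between these edges have
more than `m` steps. -/
theorem result : ∃ K : ℝ, 0 < K ∧ ∀ n : ℕ, 2 ≤ n → ∀ x : ℝ, 0 ≤ x →
    prob n (fun f => ¬ ∀ r : ℕ, 1 ≤ r →
      (∀ (s : ZMod (2 * n)) (l : ℕ), (across r s l f : ℝ) ≤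
        Real.exp (K * Real.log (r + 1) ^ 3) * (Real.log n ^ 2 + x)) ∧
      (∀ m : ℕ, 1 ≤ m → (necks r m f : ℝ) ≤
        Real.exp (K * Real.log (r + 1) ^ 3) * (n / m) * (Real.log n ^ 2 + x)) ∧
      (∀ m : ℕ, 1 ≤ m → (neckArea r m f : ℝ) ≤
        Real.exp (K * Real.log (r + 1) ^ 3) * (n / m) * (Real.log n ^ 2 + x))) ≤
      Real.exp (-x) := by
  obtain ⟨K, hK, h⟩ := poly walk
  refine ⟨K, hK, fun n hn x hx => ?_⟩
  have hn1 : 1 ≤ n := by omega
  have hne : NeZero (2 * n) := ⟨by omega⟩
  have hfin : Finite (ZMod (2 * n)) := Finite.of_fintype _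
  have hPL : (0 : ℝ) < (PL n).card := by exact_mod_cast (PL_nonempty hn).card_pos
  unfold prob
  rw [loops_eq hn1, Set.ncard_coe_finset, div_le_iff₀ hPL]
  refine le_trans (Nat.cast_le.2 ?_) (h n hn x hx)
  rw [← Set.ncard_coe_finset]
  refine Set.ncard_le_ncard ?_ (Finset.finite_toSet _)
  rintro f ⟨h1, h2⟩
  rw [Finset.mem_coe, Finset.mem_filter]
  exact ⟨h1, h2⟩

end Pool.Agent.Results.MP_f6626d_co.NarrowNecks
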